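import Mathlib
import Pool.Agent.Helper269.KcDefs
import Pool.Agent.Helper269.KcJ

set_option autoImplicit false

namespace Pool.Agent.Results.MP_c6b81c_an.NoUniformChainBound

open Pool.Agent.Helper269.KcDefs
open Pool.Agent.Helper269.KcB Pool.Agent.Helper269.KcC Pool.Agent.Helper269.KcD
open Pool.Agent.Helper269.KcF Pool.Agent.Helper269.KcG Pool.Agent.Helper269.KcH
open Pool.Agent.Helper269.KcI Pool.Agent.Helper269.KcJ

theorem secondDeriv_eq {E : Type} [NormedAddCommGroup E] [NormedSpace ℂ E] {r : E → ℝ}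
    (hr : ContDiff ℝ 2 r) (z u v : E) :
    secondDeriv r z u v = fderiv ℝ (fderiv ℝ r) z u v := by
  unfold secondDeriv
  have hr' : ContDiff ℝ 1 (fderiv ℝ r) := hr.fderiv_right (by norm_num)
  have d1 : HasFDerivAt (fderiv ℝ r) (fderiv ℝ (fderiv ℝ r) z) z :=
    ((hr'.differentiable (by norm_num)) z).hasFDerivAt
  have d2 := d1.clm_apply (hasFDerivAt_const v z)
  rw [d2.fderiv]
  simp

theorem leviForm_eq {E : Type} [NormedAddCommGroup E] [NormedSpace ℂ E] {r : E → ℝ}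
    (hr : ContDiff ℝ 2 r) (z v : E) : leviForm r z v = lev r z v / 4 := by
  unfold leviForm lev
  rw [secondDeriv_eq hr, secondDeriv_eq hr]

theorem isStronglyPseudoconvexDomain_Om {M : ℕ} (hM : M ≠ 0) {A δ η : ℝ} (hA : 16 ≤ A)
    (hg : Good M A δ η) (k : ℕ) : IsStronglyPseudoconvexDomain (Om M A δ k) := by
  have hδ := hg.2.1
  have hη := hg.1
  refine ⟨isOpen_Om M A δ k, isConnected_Om hM hA hg k,
    (isBounded_le hM hA hδ.le k).subset (fun z (hz : rr M A δ k z < 0) => le_of_lt hz),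
    rr M A δ k, ⟨contDiff_rr M A δ k, rfl, ?_⟩, ?_⟩
  · intro z hz
    have h0 := frontier_Om hz
    refine ⟨h0, ?_⟩
    obtain ⟨b0, _, b1, _⟩ := bounds hM hA hδ.le h0.le
    have hne : fderiv ℝ (rr M A δ k) z ≠ 0 := by
      apply hg.2.2.2.2 k z b0 (by linarith)
      rw [h0, abs_zero]
      exact hη.le
    by_contra hcon
    push Not at hcon
    exact hne (ContinuousLinearMap.ext hcon)
  · intro z _ v hv _
    have h := lev_rr_pos (M := M) (A := A) hδ z v hv
    rw [leviForm_eq (contDiff_rr M A δ k)]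
    linarith

theorem main (k K : ℕ) (C : ℝ) (hC : 1 ≤ C) :
    ∃ Ω : Set (EuclideanSpace ℂ (Fin (k + 2))), IsStronglyPseudoconvexDomain Ω ∧
      ∃ z ∈ Ω, ∃ w ∈ Ω, ∀ (p : ℕ → EuclideanSpace ℂ (Fin (k + 2)))
        (f : ℕ → ℂ → EuclideanSpace ℂ (Fin (k + 2))) (a b : ℕ → ℂ),
        IsKobayashiChain Ω z w K p f a b → C * kobayashiDist Ω z w < chainLength K a b := by
  set M : ℕ := 2 * K + 1 with hMd
  have hM : M ≠ 0 := by omega
  obtain ⟨m, p, f, a, b, hc⟩ := exists_chain hM k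
  set L : ℝ := chainLength m a b with hL
  have hL0 : 0 ≤ L := chainLength_nonneg _ _ _
  set B : ℝ := C * L with hB
  have hB0 : 0 ≤ B := mul_nonneg (by linarith) hL0
  have ht0 : 0 ≤ Real.tanh B := by
    rw [Real.tanh_eq_sinh_div_cosh]
    exact div_nonneg (Real.sinh_nonneg_iff.2 hB0) (Real.cosh_pos B).le
  obtain ⟨ε, hε, hprod⟩ := product_lemma 4 (Real.tanh B) (1 / 4) (by norm_num) ht0
    (Real.tanh_lt_one B) (by norm_num)
  set A : ℝ := max 16 (1 / ε ^ 2) with hAd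
  have hA : 16 ≤ A := le_max_left _ _
  have hAε : 1 ≤ A * ε ^ 2 := by
    have h1 : 1 / ε ^ 2 ≤ A := le_max_right _ _
    have h2 : 0 < ε ^ 2 := by positivity
    rwa [div_le_iff₀ h2] at h1
  obtain ⟨η, δ, hη, hδ, h9, h100, hcrit⟩ := exists_params hM hA
  have hg : Good M A δ η := ⟨hη, hδ, h9, h100, hcrit⟩
  have hA0 : 0 ≤ A := by linarith
  have hsub := Vset_subset (M := M) hA0 hδ.le h100 k
  have hc' := chain_mono hsub hc
  have hz : emb k 1 1 ∈ Om M A δ k := by
    have := hc'.mem 0 (Nat.zero_le _)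
    rwa [hc'.start] at this
  have hw : emb k (-1) 1 ∈ Om M A δ k := by
    have := hc'.mem m le_rfl
    rwa [hc'.finish] at this
  refine ⟨Om M A δ k, isStronglyPseudoconvexDomain_Om hM hA hg k, emb k 1 1, hz,
    emb k (-1) 1, hw, ?_⟩
  intro p' f' a' b' hcK
  have h1 : kobayashiDist (Om M A δ k) (emb k 1 1) (emb k (-1) 1) ≤ L := kobayashiDist_le hc'
  have h2 : B < chainLength K a' b' := chain_long hM (by omega) hA hδ.le hε hAε hprod hcK
  calc C * kobayashiDist (Om M A δ k) (emb k 1 1) (emb k (-1) 1) ≤ C * L :=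
        mul_le_mul_of_nonneg_left h1 (by linarith)
    _ < chainLength K a' b' := h2

/-- For every dimension `n ≥ 2`, every `K` and every `C ≥ 1` there are a bounded strongly
pseudoconvex domain `Ω` in `ℂⁿ` and points `z, w` in `Ω` such that every Kobayashi chain of `K`
discs from `z` to `w` is longer than `C` times the Kobayashi distance of `z` and `w`. -/
theorem result (n : ℕ) (hn : 2 ≤ n) (K : ℕ) (C : ℝ) (hC : 1 ≤ C) :
    ∃ Ω : Set (EuclideanSpace ℂ (Fin n)), IsStronglyPseudoconvexDomain Ω ∧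
      ∃ z ∈ Ω, ∃ w ∈ Ω, ∀ (p : ℕ → EuclideanSpace ℂ (Fin n))
        (f : ℕ → ℂ → EuclideanSpace ℂ (Fin n)) (a b : ℕ → ℂ),
        IsKobayashiChain Ω z w K p f a b → C * kobayashiDist Ω z w < chainLength K a b := by
  obtain ⟨k, rfl⟩ : ∃ k, n = k + 2 := ⟨n - 2, by omega⟩
  exact main k K C hC

end Pool.Agent.Results.MP_c6b81c_an.NoUniformChainBound
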